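import Pool.Agent.H86.KZ.S

/-!
# KZ, row QUO: the quotient by a nonzerodivisor
-/

set_option autoImplicit false

namespace Pool.KZ

namespace QUO

variable {K M M' : Type} [Field K] [AddCommGroup M] [Module K M] [AddCommGroup M'] [Module K M']

/-- The differential commutes with maps, at one place. -/
theorem kd_map {x : ℕ → M →ₗ[K] M} {x' : ℕ → M' →ₗ[K] M'} {φ : M →ₗ[K] M'}
    (h : ∀ j m, φ (x j m) = x' j (φ m)) {c : Finset ℕ → M} {c' : Finset ℕ → M'} {T : Finset ℕ}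
    (hc : ∀ j ∈ T, φ (c (T.erase j)) = c' (T.erase j)) : φ (kd x c T) = kd x' c' T := by
  show φ (∑ j ∈ T, sg j T • x j (c (T.erase j))) = ∑ j ∈ T, sg j T • x' j (c' (T.erase j))
  rw [map_sum]
  refine Finset.sum_congr rfl fun j hj => ?_
  rw [map_zsmul, h, hc j hj]

theorem kd_deg {x : ℕ → M →ₗ[K] M} {G : ℤ → Submodule K M} (hd : Dg x G) {s : ℤ}
    {c : Finset ℕ → M} (hc : ∀ T, c T ∈ G s) (T : Finset ℕ) : kd x c T ∈ G (s + 1) := by
  show ∑ j ∈ T, sg j T • x j (c (T.erase j)) ∈ G (s + 1)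
  exact Submodule.sum_mem _ fun j _ => zsmul_mem (hd j s _ (hc _)) _

theorem kd_zero {x : ℕ → M →ₗ[K] M} {G : Submodule K M} {J : Finset ℕ} {p : ℤ}
    {c : Finset ℕ → M} (hc : c ∈ Cc J p G) {T : Finset ℕ} (hT : (T.card : ℤ) ≠ p + 1) :
    kd x c T = 0 := by
  show ∑ j ∈ T, sg j T • x j (c (T.erase j)) = 0
  refine Finset.sum_eq_zero fun j hj => ?_
  rw [(hc (T.erase j)).2 ?_, map_zero, smul_zero]
  rintro ⟨-, h⟩
  have h1 := Finset.card_erase_add_one hj
  omega

end QUO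

open QUO

/-- QUO: the quotient by a nonzerodivisor `f` of degree `a`. -/
theorem t_quo (hKDD : KDDStmt) : QUOStmt := by
  intro K M M' _ _ _ _ _ x x' G G' f π a J p s hcm hdg hfx hinj hfd hπx hπf hker hπd hsur
    h1 h2 c' hc' hcoc
  classical
  -- the lift
  choose! L hL1 hL2 using hsur
  obtain ⟨c, hc⟩ : ∃ c : Finset ℕ → M, c = fun T => if c' T = 0 then 0 else L s (c' T) := ⟨_, rfl⟩
  have hπc : ∀ T, π (c T) = c' T := by
    intro T
    rw [hc]
    show π (if c' T = 0 then 0 else L s (c' T)) = c' T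
    split_ifs with h
    · rw [map_zero, h]
    · exact hL2 s _ (hc' T).1
  have hcG : ∀ T, c T ∈ G s := by
    intro T
    rw [hc]
    show (if c' T = 0 then 0 else L s (c' T)) ∈ G s
    split_ifs with h
    · exact zero_mem _
    · exact hL1 s _ (hc' T).1
  have hcC : c ∈ Cc J p (G s) := by
    intro T
    refine ⟨hcG T, fun h => ?_⟩
    rw [hc]
    show (if c' T = 0 then 0 else L s (c' T)) = 0
    rw [if_pos ((hc' T).2 h)]
  -- the boundary is divisible by `f`
  have hdiv : ∀ T, ∃ y ∈ G (s + 1 - a), (T ⊆ J → f y = kd x c T) ∧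
      (¬ (T ⊆ J ∧ (T.card : ℤ) = p + 1) → y = 0) := by
    intro T
    by_cases hT : T ⊆ J ∧ (T.card : ℤ) = p + 1
    · obtain ⟨y, hy, hfy⟩ := hker (s + 1) (kd x c T) (kd_deg hdg hcG T) (by
        rw [kd_map hπx (c' := c') (fun j _ => hπc _)]
        exact hcoc T hT.1)
      exact ⟨y, hy, fun _ => hfy, fun h => absurd hT h⟩
    · refine ⟨0, zero_mem _, fun h => ?_, fun _ => rfl⟩
      rw [map_zero, kd_zero hcC]
      exact fun h' => hT ⟨h, h'⟩
  choose y hyG hyf hy0 using hdiv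
  have hyC : y ∈ Cc J (p + 1) (G (s + 1 - a)) := fun T => ⟨hyG T, hy0 T⟩
  obtain ⟨v, hv, hkv⟩ := h2 y hyC (fun T hT => by
    apply hinj
    rw [map_zero, kd_map hfx (c' := kd x c) (fun j _ => hyf _ ((Finset.erase_subset _ _).trans hT)),
      hKDD K M x hcm]
    rfl)
  rw [show p + 1 - 1 = p by ring, show s + 1 - a - 1 = s - a by ring] at hv
  obtain ⟨b, hb, hkb⟩ := h1 (fun T => c T - f (v T)) (fun T => ⟨sub_mem (hcG T) (by
      have := hfd (s - a) _ (hv T).1
      rwa [sub_add_cancel] at this), fun h => by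
      show c T - f (v T) = 0
      rw [(hcC T).2 h, (hv T).2 h, map_zero, sub_zero]⟩) (fun T hT => by
    have e1 : (fun T => c T - f (v T)) = c - fun T => f (v T) := rfl
    rw [e1, map_sub, Pi.sub_apply, ← kd_map hfx (c := v) (c' := fun T => f (v T)) (fun _ _ => rfl),
      hkv T hT, hyf T hT, sub_self])
  refine ⟨fun T => π (b T), fun T => ⟨hπd _ _ (hb T).1, fun h => ?_⟩, fun T hT => ?_⟩
  · show π (b T) = 0
    rw [(hb T).2 h, map_zero]
  · rw [← kd_map hπx (c := b) (c' := fun T => π (b T)) (fun _ _ => rfl), hkb T hT, map_sub, hπf,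
      sub_zero, hπc]

end Pool.KZ
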